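import Mathlib
import Pool.Agent.Y16.AF.StmB

/-!
# Riemann sums of functions with an integrable singularity
-/

set_option autoImplicit false

open MeasureTheory Filter Set
open scoped Topology
open Pool.Agent.Y16.AF

namespace Pool.Agent.Y155.AF

/-- the nearest integer point of `M y` -/
noncomputable def nn (M : ℕ) (y : Fin 3 → ℝ) : Fin 3 → ℤ := fun j => ⌊(M : ℝ) * y j + 1 / 2⌋

/-- the cell of an integer point -/
theorem cell (M : ℕ) (hM : 0 < M) (n : Fin 3 → ℤ) : {y : Fin 3 → ℝ | nn M y = n} =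
    Set.pi univ (fun j => Ico (((n j : ℝ) - 1 / 2) / M) (((n j : ℝ) + 1 / 2) / M)) := by
  have hM' : (0 : ℝ) < M := by exact_mod_cast hM
  ext y
  simp only [Set.mem_setOf_eq, Set.mem_pi, Set.mem_univ, true_implies, Set.mem_Ico, funext_iff, nn]
  refine forall_congr' fun j => ?_
  rw [Int.floor_eq_iff, div_le_iff₀ hM', lt_div_iff₀ hM']
  constructor
  · rintro ⟨h1, h2⟩
    constructor <;> linarith
  · rintro ⟨h1, h2⟩
    constructor <;> linarith

theorem cell_meas (M : ℕ) (hM : 0 < M) (n : Fin 3 → ℤ) :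
    MeasurableSet {y : Fin 3 → ℝ | nn M y = n} := by
  rw [cell M hM]
  exact MeasurableSet.univ_pi fun _ => measurableSet_Ico

theorem cell_vol (M : ℕ) (hM : 0 < M) (n : Fin 3 → ℤ) :
    volume.real {y : Fin 3 → ℝ | nn M y = n} = 1 / (M : ℝ) ^ 3 := by
  have hM' : (0 : ℝ) < M := by exact_mod_cast hM
  rw [cell M hM, measureReal_def, Real.volume_pi_Ico, ENNReal.toReal_prod]
  have e : ∀ j : Fin 3, (ENNReal.ofReal (((n j : ℝ) + 1 / 2) / M - ((n j : ℝ) - 1 / 2) / M)).toReal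
      = 1 / M := by
    intro j
    rw [ENNReal.toReal_ofReal]
    · field_simp
      ring
    · rw [← sub_div]
      apply div_nonneg _ hM'.le
      linarith
  simp only [e]
  simp

/-- the range of the representatives -/
def InR (M : ℕ) (n : Fin 3 → ℤ) : Prop := (∀ j, n j * 2 ∈ Set.Ioc (-M : ℤ) M) ∧ n ≠ 0

open Classical in
/-- the step function -/
noncomputable def gg (h : (Fin 3 → ℝ) → ℝ) (M : ℕ) (y : Fin 3 → ℝ) : ℝ :=
  if InR M (nn M y) then h (fun j => 2 * Real.pi / M * (nn M y j : ℝ)) else 0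

theorem ir_inR {M : ℕ} [NeZero M] {k : Sp M} (hk : k ∈ nz M) : InR M (ir k) := by
  refine ⟨fun j => (k j).valMinAbs_mem_Ioc, fun h => ?_⟩
  rw [nz, Finset.mem_filter] at hk
  refine hk.2 (funext fun j => ?_)
  have h1 : (k j).valMinAbs = 0 := congrFun h j
  have h2 := (k j).coe_valMinAbs
  rw [h1] at h2
  rw [← h2]
  simp

theorem inR_ir {M : ℕ} [NeZero M] {n : Fin 3 → ℤ} (hn : InR M n) : ∃ k ∈ nz M, ir k = n := by
  refine ⟨fun j => (n j : ZMod M), ?_, ?_⟩
  · rw [nz, Finset.mem_filter]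
    refine ⟨Finset.mem_univ _, fun h => hn.2 (funext fun j => ?_)⟩
    have h1 : ((n j : ℤ) : ZMod M) = 0 := congrFun h j
    have h2 : (0 : ZMod M).valMinAbs = n j :=
      (ZMod.valMinAbs_spec _ _).2 ⟨h1.symm, hn.1 j⟩
    rw [ZMod.valMinAbs_zero] at h2
    exact h2.symm
  · funext j
    exact (ZMod.valMinAbs_spec _ _).2 ⟨rfl, hn.1 j⟩

theorem ir_inj {M : ℕ} {k l : Sp M} (h : ir k = ir l) : k = l := by
  funext j
  exact ZMod.injective_valMinAbs (congrFun h j)

/-- the step function as a sum over the points -/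
theorem gg_sum (h : (Fin 3 → ℝ) → ℝ) (M : ℕ) [NeZero M] (y : Fin 3 → ℝ) :
    gg h M y = ∑ k ∈ nz M, {y : Fin 3 → ℝ | nn M y = ir k}.indicator
      (fun _ => h (fun j => 2 * Real.pi / M * (ir k j : ℝ))) y := by
  classical
  unfold gg
  split_ifs with hr
  · obtain ⟨k, hk, hkn⟩ := inR_ir hr
    rw [Finset.sum_eq_single_of_mem k hk]
    · rw [Set.indicator_of_mem (by exact hkn.symm), hkn]
    · intro l _ hl
      refine Set.indicator_of_notMem (fun h1 => hl ?_) _
      have h1 : nn M y = ir l := h1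
      exact ir_inj (h1.symm.trans hkn.symm)
  · symm
    refine Finset.sum_eq_zero fun k hk => Set.indicator_of_notMem (fun h1 => hr ?_) _
    have h1 : nn M y = ir k := h1
    rw [h1]
    exact ir_inR hk

theorem gg_meas (h : (Fin 3 → ℝ) → ℝ) (M : ℕ) [NeZero M] : Measurable (gg h M) := by
  have hM : 0 < M := Nat.pos_of_ne_zero (NeZero.ne M)
  have e : gg h M = fun y => ∑ k ∈ nz M, {y : Fin 3 → ℝ | nn M y = ir k}.indicator
      (fun _ => h (fun j => 2 * Real.pi / M * (ir k j : ℝ))) y := funext fun y => gg_sum h M y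
  rw [e]
  exact Finset.measurable_sum _ fun k _ => measurable_const.indicator (cell_meas M hM _)

theorem gg_int (h : (Fin 3 → ℝ) → ℝ) (M : ℕ) [NeZero M] :
    ∫ y, gg h M y = 1 / (M : ℝ) ^ 3 * ∑ k ∈ nz M, h (fun j => 2 * Real.pi / M * (ir k j : ℝ)) := by
  have hM : 0 < M := Nat.pos_of_ne_zero (NeZero.ne M)
  have e : gg h M = fun y => ∑ k ∈ nz M, {y : Fin 3 → ℝ | nn M y = ir k}.indicator
      (fun _ => h (fun j => 2 * Real.pi / M * (ir k j : ℝ))) y := funext fun y => gg_sum h M y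
  rw [e, integral_finset_sum, Finset.mul_sum]
  · refine Finset.sum_congr rfl fun k _ => ?_
    rw [integral_indicator (cell_meas M hM _), setIntegral_const, cell_vol M hM, smul_eq_mul]
  · intro k _
    rw [integrable_indicator_iff (cell_meas M hM _)]
    refine integrableOn_const ?_
    rw [cell M hM, Real.volume_pi_Ico]
    exact (ENNReal.prod_lt_top fun _ _ => ENNReal.ofReal_lt_top).ne

/-- facts on the nearest point -/
theorem nn_close (M : ℕ) (hM : 0 < M) (y : Fin 3 → ℝ) (j : Fin 3) :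
    |(nn M y j : ℝ) / M - y j| ≤ 1 / (2 * M) := by
  have hM' : (0 : ℝ) < M := by exact_mod_cast hM
  have h1 := Int.floor_le ((M : ℝ) * y j + 1 / 2)
  have h2 := Int.lt_floor_add_one ((M : ℝ) * y j + 1 / 2)
  have e : (nn M y j : ℝ) / M - y j = ((⌊(M : ℝ) * y j + 1 / 2⌋ : ℝ) - M * y j) / M := by
    rw [nn]
    field_simp
  rw [e, abs_div, abs_of_pos hM', div_le_div_iff₀ hM' (by positivity)]
  have h3 : |((⌊(M : ℝ) * y j + 1 / 2⌋ : ℝ) - M * y j)| ≤ 1 / 2 := by
    rw [abs_le]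
    constructor <;> linarith
  nlinarith

theorem bound (h : (Fin 3 → ℝ) → ℝ) (C : ℝ)
    (hC : ∀ x : Fin 3 → ℝ, (∀ j, |x j| ≤ Real.pi) → x ≠ 0 → |h x| ≤ C / ∑ j, x j ^ 2)
    (M : ℕ) (hM : 0 < M) (y : Fin 3 → ℝ) :
    ‖gg h M y‖ ≤ (Metric.ball (0 : Fin 3 → ℝ) 1).indicator (fun y => |C| * (‖y‖ ^ 2)⁻¹) y := by
  classical
  have hM' : (0 : ℝ) < M := by exact_mod_cast hM
  have hpi := Real.pi_gt_three
  unfold gg
  split_ifs with hr
  · obtain ⟨h1, h2⟩ := hr
    obtain ⟨i, hi⟩ : ∃ i, nn M y i ≠ 0 := by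
      by_contra hcon
      push Not at hcon
      exact h2 (funext hcon)
    have hb : ∀ j, 2 * |(nn M y j : ℝ)| ≤ M := by
      intro j
      have h3 := (h1 j).1
      have h4 := (h1 j).2
      have h5 : |nn M y j * 2| ≤ (M : ℤ) := abs_le.2 ⟨h3.le, h4⟩
      rw [abs_mul, abs_two] at h5
      have h6 : ((|nn M y j| * 2 : ℤ) : ℝ) ≤ ((M : ℤ) : ℝ) := by exact_mod_cast h5
      push_cast at h6
      linarith
    -- the norm of `y`
    obtain ⟨i0, hi0⟩ : ∃ i0, ∀ j, |(nn M y j : ℝ)| ≤ |(nn M y i0 : ℝ)| := by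
      obtain ⟨i0, -, h0⟩ := Finset.exists_max_image (Finset.univ : Finset (Fin 3))
        (fun j => |(nn M y j : ℝ)|) ⟨0, Finset.mem_univ _⟩
      exact ⟨i0, fun j => h0 j (Finset.mem_univ _)⟩
    have h1i : (1 : ℝ) ≤ |(nn M y i0 : ℝ)| := by
      refine le_trans ?_ (hi0 i)
      have : 1 ≤ |nn M y i| := Int.one_le_abs hi
      exact_mod_cast this
    have hy : ‖y‖ ≤ 3 / 2 * (|(nn M y i0 : ℝ)| / M) := by
      rw [pi_norm_le_iff_of_nonneg (by positivity)]
      intro j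
      have h3 := nn_close M hM y j
      have h4 : |y j| ≤ |(nn M y j : ℝ) / M| + |(nn M y j : ℝ) / M - y j| := by
        have := abs_sub_abs_le_abs_sub (y j) ((nn M y j : ℝ) / M)
        rw [abs_sub_comm (y j)] at this
        linarith
      rw [Real.norm_eq_abs]
      refine h4.trans ?_
      rw [abs_div, abs_of_pos hM']
      have h5 : |(nn M y j : ℝ)| / M ≤ |(nn M y i0 : ℝ)| / M :=
        div_le_div_of_nonneg_right (hi0 j) hM'.le
      have h6 : 1 / (2 * (M : ℝ)) ≤ 1 / 2 * (|(nn M y i0 : ℝ)| / M) := by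
        rw [one_div, mul_inv, ← one_div, ← one_div]
        have : 1 / (M : ℝ) ≤ |(nn M y i0 : ℝ)| / M := by gcongr
        linarith
      linarith
    have hy1 : ‖y‖ < 1 := by
      have h3 : |(nn M y i0 : ℝ)| / M ≤ 1 / 2 := by
        rw [div_le_div_iff₀ hM' (by norm_num)]
        have := hb i0
        linarith
      linarith
    have hy0 : 0 < ‖y‖ := by
      rw [norm_pos_iff]
      rintro rfl
      apply hi
      unfold nn
      simp
      norm_num
    rw [Set.indicator_of_mem (by simpa using hy1), Real.norm_eq_abs]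
    have hx : ∀ j, |2 * Real.pi / M * (nn M y j : ℝ)| ≤ Real.pi := by
      intro j
      rw [abs_mul, abs_of_pos (by positivity : (0 : ℝ) < 2 * Real.pi / M)]
      calc 2 * Real.pi / M * |(nn M y j : ℝ)| = Real.pi / M * (2 * |(nn M y j : ℝ)|) := by ring
        _ ≤ Real.pi / M * M := mul_le_mul_of_nonneg_left (hb j) (by positivity)
        _ = Real.pi := by field_simp
    have hx0 : (fun j => 2 * Real.pi / M * (nn M y j : ℝ)) ≠ 0 := by
      intro h0
      have h3 : 2 * Real.pi / M * (nn M y i : ℝ) = 0 := congrFun h0 i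
      have h4 : (nn M y i : ℝ) ≠ 0 := by exact_mod_cast hi
      have h5 : 2 * Real.pi / M ≠ 0 := by positivity
      exact (mul_ne_zero h5 h4) h3
    have hs : ‖y‖ ^ 2 ≤ ∑ j, (2 * Real.pi / M * (nn M y j : ℝ)) ^ 2 := by
      have h3 : (2 * Real.pi / M * (nn M y i0 : ℝ)) ^ 2 ≤
          ∑ j, (2 * Real.pi / M * (nn M y j : ℝ)) ^ 2 :=
        Finset.single_le_sum (f := fun j => (2 * Real.pi / M * (nn M y j : ℝ)) ^ 2)
          (fun _ _ => sq_nonneg _) (Finset.mem_univ i0)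
      refine le_trans ?_ h3
      rw [← sq_abs (2 * Real.pi / M * (nn M y i0 : ℝ)), abs_mul,
        abs_of_pos (by positivity : (0 : ℝ) < 2 * Real.pi / M)]
      refine pow_le_pow_left₀ (norm_nonneg _) (hy.trans ?_) 2
      have h4 : 0 ≤ |(nn M y i0 : ℝ)| / M := by positivity
      calc 3 / 2 * (|(nn M y i0 : ℝ)| / M) ≤ 2 * Real.pi * (|(nn M y i0 : ℝ)| / M) :=
            mul_le_mul_of_nonneg_right (by linarith) h4
        _ = 2 * Real.pi / M * |(nn M y i0 : ℝ)| := by ring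
    refine (hC _ hx hx0).trans ?_
    have h7 : 0 < ‖y‖ ^ 2 := by positivity
    rw [← div_eq_mul_inv]
    calc C / ∑ j, (2 * Real.pi / M * (nn M y j : ℝ)) ^ 2 ≤
          |C| / ∑ j, (2 * Real.pi / M * (nn M y j : ℝ)) ^ 2 :=
          div_le_div_of_nonneg_right (le_abs_self C) (h7.le.trans hs)
      _ ≤ |C| / ‖y‖ ^ 2 := div_le_div_of_nonneg_left (abs_nonneg C) h7 hs
  · rw [norm_zero]
    exact Set.indicator_nonneg (fun _ _ => by positivity) _

theorem bound_int (C : ℝ) : Integrable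
    ((Metric.ball (0 : Fin 3 → ℝ) 1).indicator (fun y => |C| * (‖y‖ ^ 2)⁻¹)) := by
  rw [integrable_indicator_iff Metric.isOpen_ball.measurableSet]
  rw [integrableOn_fun_norm_addHaar (E := Fin 3 → ℝ) volume (f := fun r => |C| * (r ^ 2)⁻¹)]
  have hfr : Module.finrank ℝ (Fin 3 → ℝ) = 3 := by simp
  rw [hfr]
  have h1 : IntegrableOn (fun _ : ℝ => |C|) (Ioo (0 : ℝ) 1) := by
    refine integrableOn_const ?_
    simp
  refine h1.congr_fun (fun y hy => ?_) measurableSet_Ioo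
  have hy0 : y ≠ 0 := hy.1.ne'
  simp only [smul_eq_mul]
  field_simp

/-- convergence at the points of the cube -/
theorem conv_in (h : (Fin 3 → ℝ) → ℝ)
    (hc : ContinuousOn h ({x | ∀ j, |x j| ≤ Real.pi} \ {0})) (y : Fin 3 → ℝ)
    (hy : ∀ j, |y j| < 1 / 2) (hy0 : y ≠ 0) :
    Tendsto (fun L : ℕ => gg h (L + 2) y) atTop (𝓝 (h (fun j => 2 * Real.pi * y j))) := by
  classical
  have hpi := Real.pi_pos
  have hlim : ∀ j, Tendsto (fun L : ℕ => (nn (L + 2) y j : ℝ) / ((L + 2 : ℕ) : ℝ)) atTop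
      (𝓝 (y j)) := by
    intro j
    rw [tendsto_iff_dist_tendsto_zero]
    refine squeeze_zero (fun _ => dist_nonneg) (fun L => ?_)
      (tendsto_one_div_add_atTop_nhds_zero_nat (𝕜 := ℝ))
    rw [Real.dist_eq]
    refine (nn_close (L + 2) (by omega) y j).trans ?_
    push_cast
    apply one_div_le_one_div_of_le (by positivity)
    have : (0 : ℝ) ≤ L := Nat.cast_nonneg L
    linarith
  have hx : Tendsto (fun (L : ℕ) (j : Fin 3) => 2 * Real.pi / ((L + 2 : ℕ) : ℝ) *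
      (nn (L + 2) y j : ℝ)) atTop (𝓝 (fun j => 2 * Real.pi * y j)) := by
    rw [tendsto_pi_nhds]
    intro j
    refine ((hlim j).const_mul (2 * Real.pi)).congr fun L => ?_
    ring
  have hev1 : ∀ᶠ L : ℕ in atTop, ∀ j, nn (L + 2) y j * 2 ∈ Set.Ioc (-((L + 2 : ℕ) : ℤ)) ((L + 2 : ℕ) : ℤ) := by
    rw [eventually_all]
    intro j
    have h1 : ∀ᶠ L : ℕ in atTop, |(nn (L + 2) y j : ℝ) / ((L + 2 : ℕ) : ℝ)| < 1 / 2 :=
      (hlim j).abs.eventually (gt_mem_nhds (hy j))
    filter_upwards [h1] with L hL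
    have hM : (0 : ℝ) < ((L + 2 : ℕ) : ℝ) := by positivity
    rw [abs_div, abs_of_pos hM, div_lt_div_iff₀ hM (by norm_num)] at hL
    have h2 : |(nn (L + 2) y j : ℝ) * 2| < ((L + 2 : ℕ) : ℝ) := by
      rw [abs_mul, abs_two]
      linarith
    rw [abs_lt] at h2
    constructor
    · have := h2.1
      exact_mod_cast this
    · have := h2.2.le
      exact_mod_cast this
  obtain ⟨i, hi⟩ : ∃ i, y i ≠ 0 := by
    by_contra hcon
    push Not at hcon
    exact hy0 (funext hcon)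
  have hev2 : ∀ᶠ L : ℕ in atTop, nn (L + 2) y ≠ 0 := by
    have h1 : ∀ᶠ L : ℕ in atTop, (nn (L + 2) y i : ℝ) / ((L + 2 : ℕ) : ℝ) ≠ 0 :=
      (hlim i).eventually_ne hi
    filter_upwards [h1] with L hL h0
    apply hL
    rw [h0]
    simp
  have hmem : ∀ᶠ L : ℕ in atTop, (fun j => 2 * Real.pi / ((L + 2 : ℕ) : ℝ) *
      (nn (L + 2) y j : ℝ)) ∈ ({x : Fin 3 → ℝ | ∀ j, |x j| ≤ Real.pi} \ {0}) := by
    filter_upwards [hev1, hev2] with L hL1 hL2
    have hM : (0 : ℝ) < ((L + 2 : ℕ) : ℝ) := by positivity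
    constructor
    · intro j
      have h3 := (hL1 j).1
      have h4 := (hL1 j).2
      have h5 : |nn (L + 2) y j * 2| ≤ ((L + 2 : ℕ) : ℤ) := abs_le.2 ⟨h3.le, h4⟩
      rw [abs_mul, abs_two] at h5
      have h6 : ((|nn (L + 2) y j| * 2 : ℤ) : ℝ) ≤ (((L + 2 : ℕ) : ℤ) : ℝ) := by exact_mod_cast h5
      push_cast at h6
      rw [abs_mul, abs_of_pos (by positivity : (0 : ℝ) < 2 * Real.pi / ((L + 2 : ℕ) : ℝ))]
      calc 2 * Real.pi / ((L + 2 : ℕ) : ℝ) * |(nn (L + 2) y j : ℝ)| =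
            Real.pi / ((L + 2 : ℕ) : ℝ) * (|(nn (L + 2) y j : ℝ)| * 2) := by ring
        _ ≤ Real.pi / ((L + 2 : ℕ) : ℝ) * ((L + 2 : ℕ) : ℝ) := by
            refine mul_le_mul_of_nonneg_left ?_ (by positivity)
            push_cast
            exact h6
        _ = Real.pi := by field_simp
    · intro h0
      apply hL2
      funext j
      have h3 : 2 * Real.pi / ((L + 2 : ℕ) : ℝ) * (nn (L + 2) y j : ℝ) = 0 := congrFun h0 j
      have h5 : 2 * Real.pi / ((L + 2 : ℕ) : ℝ) ≠ 0 := by positivity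
      have h6 := (mul_eq_zero.1 h3).resolve_left h5
      exact_mod_cast h6
  have hyp : (fun j => 2 * Real.pi * y j) ∈ ({x : Fin 3 → ℝ | ∀ j, |x j| ≤ Real.pi} \ {0}) := by
    constructor
    · intro j
      rw [abs_mul, abs_of_pos (by positivity : (0 : ℝ) < 2 * Real.pi)]
      have := (hy j).le
      nlinarith
    · intro h0
      have h3 : 2 * Real.pi * y i = 0 := congrFun h0 i
      exact (mul_ne_zero (by positivity) hi) h3
  have h1 := (hc _ hyp).tendsto.comp (tendsto_nhdsWithin_iff.2 ⟨hx, hmem⟩)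
  refine h1.congr' ?_
  filter_upwards [hev1, hev2] with L hL1 hL2
  rw [gg, if_pos ⟨hL1, hL2⟩]
  rfl

/-- convergence outside of the cube -/
theorem conv_out (h : (Fin 3 → ℝ) → ℝ) (y : Fin 3 → ℝ) (i : Fin 3) (hy : 1 / 2 < |y i|) :
    Tendsto (fun L : ℕ => gg h (L + 2) y) atTop (𝓝 0) := by
  classical
  have hlim : Tendsto (fun L : ℕ => (nn (L + 2) y i : ℝ) / ((L + 2 : ℕ) : ℝ)) atTop
      (𝓝 (y i)) := by
    rw [tendsto_iff_dist_tendsto_zero]
    refine squeeze_zero (fun _ => dist_nonneg) (fun L => ?_)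
      (tendsto_one_div_add_atTop_nhds_zero_nat (𝕜 := ℝ))
    rw [Real.dist_eq]
    refine (nn_close (L + 2) (by omega) y i).trans ?_
    push_cast
    apply one_div_le_one_div_of_le (by positivity)
    have : (0 : ℝ) ≤ L := Nat.cast_nonneg L
    linarith
  have h1 : ∀ᶠ L : ℕ in atTop, 1 / 2 < |(nn (L + 2) y i : ℝ) / ((L + 2 : ℕ) : ℝ)| :=
    hlim.abs.eventually (lt_mem_nhds hy)
  refine tendsto_const_nhds.congr' ?_
  filter_upwards [h1] with L hL
  rw [gg, if_neg]
  rintro ⟨h2, -⟩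
  have hM : (0 : ℝ) < ((L + 2 : ℕ) : ℝ) := by positivity
  rw [abs_div, abs_of_pos hM, div_lt_div_iff₀ (by norm_num) hM] at hL
  have h3 := (h2 i).1
  have h4 := (h2 i).2
  have h5 : |nn (L + 2) y i * 2| ≤ ((L + 2 : ℕ) : ℤ) := abs_le.2 ⟨h3.le, h4⟩
  rw [abs_mul, abs_two] at h5
  have h6 : ((|nn (L + 2) y i| * 2 : ℤ) : ℝ) ≤ (((L + 2 : ℕ) : ℤ) : ℝ) := by exact_mod_cast h5
  push_cast at h6 hL
  linarith

theorem af_rs : S_RS := by
  classical
  intro h C hc hC
  refine ⟨∫ y : Fin 3 → ℝ, (if ∀ j, |y j| < 1 / 2 then h (fun j => 2 * Real.pi * y j) else 0), ?_⟩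
  have key : Tendsto (fun L : ℕ => ∫ y, gg h (L + 2) y) atTop
      (𝓝 (∫ y : Fin 3 → ℝ, (if ∀ j, |y j| < 1 / 2 then h (fun j => 2 * Real.pi * y j) else 0))) := by
    refine tendsto_integral_of_dominated_convergence _
      (fun L => (gg_meas h (L + 2)).aestronglyMeasurable) (bound_int C)
      (fun L => ae_of_all _ fun y => bound h C hC (L + 2) (by omega) y) ?_
    have hae : ∀ᵐ y : Fin 3 → ℝ, (∀ j, y j ≠ 1 / 2 ∧ y j ≠ -(1 / 2)) ∧ y 0 ≠ 0 := by
      have h1 : ∀ (j : Fin 3) (x : ℝ), ∀ᵐ y : Fin 3 → ℝ, y j ≠ x := by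
        intro j x
        exact Measure.ae_eval_ne (μ := fun _ : Fin 3 => (volume : Measure ℝ)) j x
      refine (ae_all_iff.2 fun j => ?_).and (h1 0 0)
      exact (h1 j _).and (h1 j _)
    filter_upwards [hae] with y hy
    by_cases hin : ∀ j, |y j| < 1 / 2
    · rw [if_pos hin]
      exact conv_in h hc y hin fun h0 => hy.2 (by rw [h0]; rfl)
    · rw [if_neg hin]
      push Not at hin
      obtain ⟨i, hi⟩ := hin
      refine conv_out h y i (lt_of_le_of_ne hi fun h0 => ?_)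
      rcases eq_or_eq_neg_of_abs_eq h0.symm with h1 | h1
      · exact (hy.1 i).1 h1
      · exact (hy.1 i).2 h1
  refine key.congr fun L => ?_
  rw [gg_int]

end Pool.Agent.Y155.AF
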